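import Pool.Agent.Helper36.VC.St

/-! Module CTB of project VC: counting, case `t = κ`. -/

set_option autoImplicit false

open Cardinal Ordinal Set Filter

open Pool.Agent.Helper65.GS Pool.Agent.Helper36.VC

universe u

namespace Pool.Agent.Helper24.VC

theorem pCTB (hCNT : StCNT.{u}) : StCTB.{u} := by
  intro X κ W A l f h hl ex g0 hg0 G' hyp
  have hne : ∀ a ∈ Iio l, ∀ b ∈ Iio l, a ≠ b → ∀ᶠ x in W, x ∈ A → f a x ≠ f b x := by
    intro a ha b hb hab
    rcases lt_or_gt_of_ne hab with h1 | h1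
    · filter_upwards [h.rep.inc a b h1 hb] with x hx hxA
      exact (hx hxA).ne
    · filter_upwards [h.rep.inc b a h1 ha] with x hx hxA
      exact (hx hxA).ne'
  have hcnt := hCNT l g0 ω
    (fun i j => {b | b ∈ Iio l ∧ ∃ n : ℕ, j = n ∧ Pos W {x ∈ A | f b x = G' i n (ex x)}})
    (by
      intro i _ j hj
      obtain ⟨n, rfl⟩ := Ordinal.lt_omega0.1 hj
      refine (countable_of_ae_ne (B := A) h.sat (Iio l) f hne
        (fun x => G' i n (ex x))).mono ?_
      rintro b ⟨hb, m, hm, hp⟩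
      have hmn : n = m := by exact_mod_cast hm
      subst hmn
      exact ⟨hb, hp⟩)
    (by
      intro c hc
      obtain ⟨i, hi, j, hp⟩ := hyp {x ∈ A | f c x < κ.ord} (fun x hx => hx.1)
        (h.pos.ae (h.rep.bd c hc)) (f c) (fun x hx => hx.2)
      exact ⟨i, hi, j, Ordinal.nat_lt_omega0 j, hc, j, rfl, hp.mono fun x hx => ⟨hx.1.1, hx.2⟩⟩)
  have h1 : g0.card < l.card := Cardinal.lt_ord.1 (by rw [hl]; exact hg0)
  have hω : ω < κ.ord := by
    rw [← Cardinal.ord_aleph0]
    exact Cardinal.ord_lt_ord.2 h.unc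
  have h2 : ω < l.card.ord := by
    rw [hl]
    exact hω.trans h.kl
  have h3 : (ℵ₀ : Cardinal.{u}) < l.card := by
    have := Cardinal.lt_ord.1 h2
    rwa [Ordinal.card_omega0] at this
  rw [Ordinal.card_omega0] at hcnt
  exact absurd hcnt (not_le.2 (max_lt (max_lt h1 h3) h3))

end Pool.Agent.Helper24.VC
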